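import Mathlib

/-!
# Monoids from pre-upho colourings: greatest common left divisors can fail to exist

We give a graded lattice of rank four with nineteen elements, whose maximum is the join of its six
atoms, and a pre-upho colouring of it, such that two elements of the monoid presented by the
coloured chains have no greatest common left divisor.
-/

set_option autoImplicit false

namespace Pool.Agent.Results.MP_4cc90a_co.NoGreatestCommonDivisor

/-! ## General definitions -/

section general

variable {L : Type} [Lattice L] [BoundedOrder L]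

/-- The type of atoms of `L`. -/
abbrev At (L : Type) [Lattice L] [BoundedOrder L] : Type := {a : L // IsAtom a}

/-- `rk` is the rank function of the graded lattice `L`. -/
def IsRank (rk : L → ℕ) : Prop := rk ⊥ = 0 ∧ ∀ x y : L, x ⋖ y → rk y = rk x + 1

/-- A colouring `c` of the covers of `L` by atoms (the values of `c` at pairs that are not covers
are never used) is a pre-upho colouring if `c (⊥ ⋖ s) = s` for every atom `s`, and for every
`x ≠ ⊥, ⊤`, with `z` the join of the upper covers of `x`, there is an order embedding of the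
interval `[x, z]` into `L` which preserves ranks (measured from `x`) and colours of covers. -/
def IsPreUpho (rk : L → ℕ) (c : L → L → At L) : Prop :=
  (∀ s : At L, c ⊥ s = s) ∧
  ∀ x : L, x ≠ ⊥ → x ≠ ⊤ → ∀ z : L, IsLUB {y | x ⋖ y} z →
    ∃ φ : Set.Icc x z ↪o L,
      (∀ u : Set.Icc x z, rk (φ u) + rk x = rk u) ∧
      ∀ u v : Set.Icc x z, (u : L) ⋖ v → c (φ u) (φ v) = c u v

/-- The word `c(x₀ ⋖ x₁) c(x₁ ⋖ x₂) ⋯ c(x_{k-1} ⋖ x_k)` of the chain `[x₀, …, x_k]`. -/
def word (c : L → L → At L) : List L → FreeMonoid (At L)
  | [] => 1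
  | [_] => 1
  | x :: y :: l => FreeMonoid.of (c x y) * word c (y :: l)

/-- `IsChainTo x l z`: the list `x :: l` is a saturated chain from `x` to `z`. -/
def IsChainTo (x : L) (l : List L) (z : L) : Prop :=
  (x :: l).IsChain (· ⋖ ·) ∧ (x :: l).getLast (List.cons_ne_nil x l) = z

/-- The defining relations of the monoid: for two atoms `x`, `y`, a saturated chain from `⊥`
through `x` to `x ⊔ y` and a saturated chain from `⊥` through `y` to `x ⊔ y` have equal words. -/
def Rel (c : L → L → At L) (a b : FreeMonoid (At L)) : Prop :=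
  ∃ (x y : At L) (l m : List L),
    IsChainTo ⊥ ((x : L) :: l) ((x : L) ⊔ y) ∧ IsChainTo ⊥ ((y : L) :: m) ((x : L) ⊔ y) ∧
    a = word c (⊥ :: (x : L) :: l) ∧ b = word c (⊥ :: (y : L) :: m)

/-- The monoid `M` of the colouring `c`. -/
abbrev Mon (c : L → L → At L) : Type := PresentedMonoid (Rel c)

/-- `u ≤_L v`: `u` is a left divisor of `v`. -/
def LeftDvd {M : Type} [Monoid M] (u v : M) : Prop := ∃ w : M, v = u * w

/-- `d` is a greatest common left divisor of `u` and `v`. -/
def IsGCLD {M : Type} [Monoid M] (d u v : M) : Prop :=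
  LeftDvd d u ∧ LeftDvd d v ∧ ∀ d' : M, LeftDvd d' u → LeftDvd d' v → LeftDvd d' d

end general

/-! ## The example -/

/-- The nineteen elements: `0` is the minimum, `1, …, 6` are the atoms `s, t, r, p, q, m`,
`7, …, 13` have rank two, `14, …, 17` have rank three and `18` is the maximum. -/
def Elt : Type := Fin 19

instance : DecidableEq Elt := inferInstanceAs (DecidableEq (Fin 19))
instance : Fintype Elt := inferInstanceAs (Fintype (Fin 19))

/-- bit `19 b + a` says whether `a ≤ b` -/
def leT : ℕ := 0x1ffffd1e389020d102161021c102081031010420104401068010b0010e001040010800110001200014000180001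
/-- digit `19 a + b` in base `32` is the join of `a` and `b` -/
def supT : ℕ := 0x1294a5294a5294a5294a5294a5194a518c63294a318ca528ca5094a5294a1294a528425094a4f94a52949f294a4f93df294a4e94a52949d294a4e73a5194a4d8c632949b18ca526ca3294a2c8c6529458c94a4c946529462b8ca528ae32949728ca528c62a94a518aa5292a5284a5294a4994a52925324ca527ca5294a4894a524490894a5274a5294a4794a5239cf28ca526c63194a468c65291a5194a5162e3294a2564a522ca3294a2c8aa529458494a4494a0f94a529251294a434a0729424e94a524c8f29492238a5293dd294a5241e52920e10ca307b9ac5a928398a418820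
/-- digit `19 a + b` in base `32` is the meet of `a` and `b` -/
def infT : ℕ := 0x128c1ee6b16a4a0e629062082310000d62d40000c52000004010188000012310000188007806f0800000d01000030040e0082e00000104e000002081ad0000d00000000c000000031800000c29000000a4000005ac00000ab00000014000000a500000100a00000010000012048c40000091880000c400200340400000680800018020380413800000827000001040630000300000000600000000a5000002940000005000000108000004010000000400000180630000000c6000003000020080200000100400000200020004200000008400000010000000000000000000000000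
/-- digit `a` in base `8` is the rank of `a` -/
def rkT : ℕ := 0x11b6d2492449248
/-- digit `19 a + b` in base `8` plus one is the colour of `a ⋖ b` -/
def colT : ℕ := 0x180000000000000c00000000000006000000000000030000000000000030000000000000180000000000000c0000000000000600000000000000000000000000000000000000000000000000000000000000000000000000200000000000001000000000000000160000000000000a180000000000008c0000000000000163440
/-- bit `19 b + a` says whether `b` covers `a` -/
def covT : ℕ := 0xf00001e00002000020000200002000030000400004000060000a0000c000040000800010000200004000080000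
/-- digit `x` in base `32` is the join of the upper covers of `x` -/
def topT : ℕ := 0x25294a318c60f7363194a40
/-- digit `19 x + u` in base `32` is the image of `u` under the embedding at `x` -/
def phiT : ℕ := 0x8000000000000000000000010000000000000000000000020000000000000000000000040000000000000000000000004000000000000000000000008000000000000000000000010000000000000000000000020000000000000000000000000800000000000000000000000080000000000000000000000008000000000000000000000000800000000000000000700000104000000000000000e000002004000000000000881ab00000018a000000000110340a0000030080000000022002d400000029000000000000000000000000000000000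

/-- digit `i` of `t` in base `2 ^ k` -/
def digit (k t i : ℕ) : ℕ := (t >>> (k * i)) % 2 ^ k

/-- the element with a given number -/
def el (n : ℕ) : Elt := (Fin.ofNat 19 n : Fin 19)

/-- the number of an element -/
def nu (a : Elt) : ℕ := Fin.val (a : Fin 19)

instance : LE Elt := ⟨fun a b => leT.testBit (19 * nu b + nu a) = true⟩
instance : LT Elt := ⟨fun a b => a ≤ b ∧ ¬ b ≤ a⟩

instance : DecidableRel (fun a b : Elt => a ≤ b) := fun a b =>
  inferInstanceAs (Decidable (leT.testBit (19 * nu b + nu a) = true))
instance : DecidableRel (fun a b : Elt => a < b) := fun a b =>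
  inferInstanceAs (Decidable (a ≤ b ∧ ¬ b ≤ a))

instance : Max Elt := ⟨fun a b => el (digit 5 supT (19 * nu a + nu b))⟩
instance : Min Elt := ⟨fun a b => el (digit 5 infT (19 * nu a + nu b))⟩

instance : Lattice Elt where
  le_refl := by decide +kernel
  le_trans := by decide +kernel
  le_antisymm := by decide +kernel
  sup := max
  inf := min
  le_sup_left := by decide +kernel
  le_sup_right := by decide +kernel
  sup_le := by decide +kernel
  inf_le_left := by decide +kernel
  inf_le_right := by decide +kernel
  le_inf := by decide +kernel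

instance : BoundedOrder Elt where
  top := el 18
  bot := el 0
  le_top := by decide +kernel
  bot_le := by decide +kernel

/-- the cover relation, decidable -/
theorem cov_iff : ∀ a b : Elt, a ⋖ b ↔ covT.testBit (19 * nu b + nu a) = true := by
  unfold CovBy
  decide +kernel

instance : DecidableRel (fun a b : Elt => a ⋖ b) := fun a b =>
  decidable_of_iff _ (cov_iff a b).symm

/-- the rank function -/
def rk (a : Elt) : ℕ := digit 3 rkT (nu a)

theorem isRank_rk : IsRank rk := by
  refine ⟨by decide +kernel, ?_⟩
  decide +kernel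

theorem isAtom_iff (a : Elt) : IsAtom a ↔ ⊥ ⋖ a := bot_covBy_iff.symm

/-- the atoms, numbered from `0` to `5` -/
def at' (i : Fin 6) : At Elt :=
  ⟨el (i.val + 1), (isAtom_iff _).2 (by revert i; decide +kernel)⟩

/-- the colouring -/
def col (a b : Elt) : At Elt := at' (Fin.ofNat 6 (digit 3 colT (19 * nu a + nu b)))

instance : DecidableEq (At Elt) := inferInstance

theorem exists_at (s : At Elt) : ∃ i, s = at' i := by
  obtain ⟨a, ha⟩ := s
  rw [isAtom_iff] at ha
  have : ∀ a : Elt, ⊥ ⋖ a → ∃ i : Fin 6, a = el (i.val + 1) := by decide +kernel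
  obtain ⟨i, hi⟩ := this a ha
  exact ⟨i, Subtype.ext hi⟩

/-! ### The colouring is a pre-upho colouring -/

/-- the join of the upper covers of `x` -/
def top (x : Elt) : Elt := el (digit 5 topT (nu x))

/-- the embedding at `x` -/
def ph (x u : Elt) : Elt := el (digit 5 phiT (19 * nu x + nu u))

theorem isLUB_top (x : Elt) (h0 : x ≠ ⊥) (h1 : x ≠ ⊤) : IsLUB {y | x ⋖ y} (top x) := by
  have key : ∀ x : Elt, x ≠ ⊥ → x ≠ ⊤ → (∀ y : Elt, x ⋖ y → y ≤ top x) ∧
      ∀ b : Elt, (∀ y : Elt, x ⋖ y → y ≤ b) → top x ≤ b := by decide +kernel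
  refine ⟨fun y hy => (key x h0 h1).1 y hy, fun b hb => (key x h0 h1).2 b fun y hy => hb hy⟩

theorem ph_spec : ∀ x : Elt, x ≠ ⊥ → x ≠ ⊤ → ∀ u : Elt, x ≤ u ∧ u ≤ top x →
    rk (ph x u) + rk x = rk u ∧ ∀ v : Elt, x ≤ v ∧ v ≤ top x →
      (ph x u ≤ ph x v ↔ u ≤ v) ∧ (u ⋖ v → col (ph x u) (ph x v) = col u v) := by
  decide +kernel

theorem isPreUpho_col : IsPreUpho rk col := by
  refine ⟨?_, ?_⟩
  · intro s
    obtain ⟨i, rfl⟩ := exists_at s
    revert i
    decide +kernel
  · intro x h0 h1 z hz
    obtain rfl : z = top x := hz.unique (isLUB_top x h0 h1)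
    refine ⟨OrderEmbedding.ofMapLEIff (fun u => ph x u) ?_, ?_, ?_⟩
    · intro u v
      exact ((ph_spec x h0 h1 u u.2).2 v v.2).1
    · intro u
      exact (ph_spec x h0 h1 u u.2).1
    · intro u v huv
      exact ((ph_spec x h0 h1 u u.2).2 v v.2).2 huv

/-! ### Two homomorphisms -/

/-- digit `5 z + x` in base `8` is the value at `x` of the map attached to `z` -/
def gT : ℕ := 0x12492492492492492492492492292492492492491c9239249248a491491c923864724688

/-- the transformation of `{0, …, 4}` attached to a lattice element -/
def G (z : Elt) : Function.End (Fin 5) := fun x => Fin.ofNat 5 (digit 3 gT (5 * nu z + x.val))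

theorem G_bot : G ⊥ = 1 := by
  have : ∀ x : Fin 5, G ⊥ x = x := by decide +kernel
  exact funext this

theorem G_step (a b : Elt) (h : a ⋖ b) : G a * G (col a b) = G b := by
  have key : ∀ a b : Elt, a ⋖ b → ∀ x : Fin 5, G a (G (col a b) x) = G b x := by decide +kernel
  exact funext (key a b h)

/-- the homomorphism from words to transformations -/
def F : FreeMonoid (At Elt) →* Function.End (Fin 5) := FreeMonoid.lift fun a => G a

theorem F_word (l : List Elt) : ∀ (a z : Elt), IsChainTo a l z →
    G a * F (word col (a :: l)) = G z := by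
  induction l with
  | nil =>
    intro a z h
    have : a = z := by simpa using h.2
    subst this
    show G a * F 1 = G a
    rw [map_one, mul_one]
  | cons b l ih =>
    intro a z h
    obtain ⟨h1, h2⟩ := h
    rw [List.isChain_cons_cons] at h1
    have h3 : IsChainTo b l z := ⟨h1.2, by simpa using h2⟩
    show G a * F (FreeMonoid.of (col a b) * word col (b :: l)) = G z
    rw [map_mul, ← mul_assoc]
    have : F (FreeMonoid.of (col a b)) = G (col a b) := by
      simp [F]
    rw [this, G_step a b h1.1]
    exact ih b z h3

/-- the length homomorphism -/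
def len : FreeMonoid (At Elt) →* Multiplicative ℕ :=
  FreeMonoid.lift fun _ => Multiplicative.ofAdd 1

theorem len_word (l : List Elt) : ∀ (a z : Elt), IsChainTo a l z →
    Multiplicative.ofAdd (rk a) * len (word col (a :: l)) = Multiplicative.ofAdd (rk z) := by
  induction l with
  | nil =>
    intro a z h
    have : a = z := by simpa using h.2
    subst this
    show _ * len 1 = _
    rw [map_one, mul_one]
  | cons b l ih =>
    intro a z h
    obtain ⟨h1, h2⟩ := h
    rw [List.isChain_cons_cons] at h1
    have h3 : IsChainTo b l z := ⟨h1.2, by simpa using h2⟩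
    show _ * len (FreeMonoid.of (col a b) * word col (b :: l)) = _
    rw [map_mul, ← mul_assoc]
    have : len (FreeMonoid.of (col a b)) = Multiplicative.ofAdd 1 := by
      simp [len]
    rw [this, ← ofAdd_add, ← isRank_rk.2 a b h1.1]
    exact ih b z h3

theorem F_rel (a b : FreeMonoid (At Elt)) (h : Rel col a b) : F a = F b := by
  obtain ⟨x, y, l, m, h1, h2, rfl, rfl⟩ := h
  have e1 := F_word _ _ _ h1
  have e2 := F_word _ _ _ h2
  rw [G_bot, one_mul] at e1 e2
  rw [e1, e2]

theorem len_rel (a b : FreeMonoid (At Elt)) (h : Rel col a b) : len a = len b := by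
  obtain ⟨x, y, l, m, h1, h2, rfl, rfl⟩ := h
  have e1 := len_word _ _ _ h1
  have e2 := len_word _ _ _ h2
  exact mul_left_cancel (e1.trans e2.symm)

/-- the action of the monoid on `{0, …, 4}` -/
def FM : Mon col →* Function.End (Fin 5) := PresentedMonoid.lift (fun a : At Elt => G a) F_rel

/-- the length homomorphism of the monoid -/
def LM : Mon col →* Multiplicative ℕ :=
  PresentedMonoid.lift (fun _ : At Elt => Multiplicative.ofAdd 1) len_rel

theorem LM_eq_one (u : Mon col) (h : LM u = 1) : u = 1 := by
  induction u using PresentedMonoid.inductionOn with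
  | h a =>
    have h' : len a = 1 := h
    induction a using FreeMonoid.casesOn with
    | one => rfl
    | of_mul x xs =>
      exfalso
      rw [map_mul] at h'
      have h2 : len (FreeMonoid.of x) = Multiplicative.ofAdd 1 := by simp [len]
      rw [h2] at h'
      have h3 : 1 + (len xs).toAdd = 0 := h'
      omega

/-! ### The two elements -/

/-- the generators of the monoid -/
def ge (i : Fin 6) : Mon col := PresentedMonoid.of (Rel col) (at' i)

theorem ge_rel (i j k l : Fin 6) (z : Elt) (h : ((at' i : At Elt) : Elt) ⊔ at' j = z)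
    (h0i : (⊥ : Elt) ⋖ at' i) (h0j : (⊥ : Elt) ⋖ at' j)
    (hi : ((at' i : At Elt) : Elt) ⋖ z) (hj : ((at' j : At Elt) : Elt) ⋖ z)
    (hk : col (at' i) z = at' k) (hl : col (at' j) z = at' l) :
    ge i * ge k = ge j * ge l := by
  have h1 : Rel col (word col [⊥, ((at' i : At Elt) : Elt), z])
      (word col [⊥, ((at' j : At Elt) : Elt), z]) := by
    refine ⟨at' i, at' j, [z], [z], ⟨?_, ?_⟩, ⟨?_, ?_⟩, rfl, rfl⟩
    · simp [List.isChain_cons_cons, h0i, hi]
    · simpa using h.symm
    · simp [List.isChain_cons_cons, h0j, hj]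
    · simpa using h.symm
  have h2 := PresentedMonoid.mk_eq_mk_of_rel h1
  have e1 : word col [⊥, ((at' i : At Elt) : Elt), z] =
      FreeMonoid.of (at' i) * FreeMonoid.of (at' k) := by
    show FreeMonoid.of (col ⊥ (at' i)) * (FreeMonoid.of (col (at' i) z) * 1) = _
    rw [isPreUpho_col.1, hk, mul_one]
  have e2 : word col [⊥, ((at' j : At Elt) : Elt), z] =
      FreeMonoid.of (at' j) * FreeMonoid.of (at' l) := by
    show FreeMonoid.of (col ⊥ (at' j)) * (FreeMonoid.of (col (at' j) z) * 1) = _
    rw [isPreUpho_col.1, hl, mul_one]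
  rw [e1, e2, map_mul, map_mul] at h2
  exact h2

theorem rel_sp : ge 0 * ge 3 = ge 1 * ge 3 :=
  ge_rel 0 1 3 3 (el 7) (by decide +kernel) (by decide +kernel) (by decide +kernel)
    (by decide +kernel) (by decide +kernel) (by decide +kernel) (by decide +kernel)

theorem rel_sq : ge 0 * ge 4 = ge 2 * ge 4 :=
  ge_rel 0 2 4 4 (el 8) (by decide +kernel) (by decide +kernel) (by decide +kernel)
    (by decide +kernel) (by decide +kernel) (by decide +kernel) (by decide +kernel)

theorem rel_tm : ge 1 * ge 5 = ge 2 * ge 5 :=
  ge_rel 1 2 5 5 (el 9) (by decide +kernel) (by decide +kernel) (by decide +kernel)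
    (by decide +kernel) (by decide +kernel) (by decide +kernel) (by decide +kernel)

theorem rel_pt : ge 3 * ge 1 = ge 4 * ge 1 :=
  ge_rel 3 4 1 1 (el 12) (by decide +kernel) (by decide +kernel) (by decide +kernel)
    (by decide +kernel) (by decide +kernel) (by decide +kernel) (by decide +kernel)

theorem FM_ge (i : Fin 6) : FM (ge i) = G (at' i) := rfl

theorem LM_ge (i : Fin 6) : LM (ge i) = Multiplicative.ofAdd 1 := rfl

theorem no_gcld : ¬ ∃ d : Mon col, IsGCLD d (ge 1 * ge 3 * ge 1) (ge 1 * ge 5) := by
  rintro ⟨d, ⟨a, ha⟩, ⟨b, hb⟩, hd⟩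
  have ht : LeftDvd (ge 1) d :=
    hd _ ⟨ge 3 * ge 1, by rw [mul_assoc]⟩ ⟨ge 5, rfl⟩
  have hr : LeftDvd (ge 2) d := by
    refine hd _ ⟨ge 4 * ge 1, ?_⟩ ⟨ge 5, rel_tm⟩
    rw [← rel_sp, mul_assoc, rel_pt, ← mul_assoc, rel_sq, mul_assoc]
  obtain ⟨e, he⟩ := ht
  obtain ⟨f, hf⟩ := hr
  have l1 : LM d = Multiplicative.ofAdd 1 * LM e := by rw [he, map_mul, LM_ge]
  have l2 : LM d = Multiplicative.ofAdd 1 * LM f := by rw [hf, map_mul, LM_ge]
  have l3 : Multiplicative.ofAdd 1 * Multiplicative.ofAdd 1 = LM d * LM b := by
    have h := congrArg LM hb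
    rwa [map_mul, map_mul, LM_ge, LM_ge] at h
  have l1' : (LM d).toAdd = 1 + (LM e).toAdd := congrArg Multiplicative.toAdd l1
  have l2' : (LM d).toAdd = 1 + (LM f).toAdd := congrArg Multiplicative.toAdd l2
  have l3' : 1 + 1 = (LM d).toAdd + (LM b).toAdd := congrArg Multiplicative.toAdd l3
  by_cases h0 : (LM e).toAdd = 0
  · have he1 : e = 1 := LM_eq_one e h0
    have hf1 : f = 1 := LM_eq_one f (by
      have : (LM f).toAdd = 0 := by omega
      exact this)
    rw [he1, mul_one] at he
    rw [hf1, mul_one] at hf
    have : FM (ge 1) = FM (ge 2) := by rw [← he, ← hf]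
    rw [FM_ge, FM_ge] at this
    have h2 := congrFun this (0 : Fin 5)
    revert h2
    decide +kernel
  · have hb1 : b = 1 := LM_eq_one b (by
      have : (LM b).toAdd = 0 := by omega
      exact this)
    rw [hb1, mul_one] at hb
    rw [← hb] at ha
    have h1 := congrArg FM ha
    simp only [map_mul, FM_ge] at h1
    have h2 := congrFun h1 (0 : Fin 5)
    have h3 : ∀ x : Fin 5, (G (at' 1) * G (at' 3) * G (at' 1)) (0 : Fin 5) ≠
        (G (at' 1) * G (at' 5)) x := by
      have : ∀ x : Fin 5, G (at' 1) (G (at' 3) (G (at' 1) (0 : Fin 5))) ≠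
        G (at' 1) (G (at' 5) x) := by decide +kernel
      exact this
    exact h3 (FM a 0) h2

/-- **The answer to Q1 is no.**  There are a finite graded lattice `L` (with rank function `rk`)
whose maximum is the join of its atoms and a pre-upho colouring `c` of `L`, such that two elements
of the monoid `M` of `c` have no greatest common left divisor. -/
theorem result :
    ∃ (L : Type) (_ : Fintype L) (_ : Lattice L) (_ : BoundedOrder L) (rk : L → ℕ)
      (c : L → L → At L),
      IsRank rk ∧ IsLUB {a : L | IsAtom a} ⊤ ∧ IsPreUpho rk c ∧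
      ∃ u v : Mon c, ¬ ∃ d : Mon c, IsGCLD d u v := by
  refine ⟨Elt, inferInstance, inferInstance, inferInstance, rk, col, isRank_rk, ?_, isPreUpho_col,
    _, _, no_gcld⟩
  refine ⟨fun a _ => le_top, fun b hb => ?_⟩
  have h1 : ∀ b : Elt, (∀ a : Elt, ⊥ ⋖ a → a ≤ b) → ⊤ ≤ b := by decide +kernel
  exact h1 b fun a ha => hb (isAtom_iff a |>.2 ha)

end Pool.Agent.Results.MP_4cc90a_co.NoGreatestCommonDivisor
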